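import Pool.Agent.H532R2.MC.Defs

/-!
# The Minimum Formula Size Problem: definitions
-/

namespace Pool.Agent.H532R2.MF

open Pool.Agent.H532R2.MC

/-- De Morgan formulas in `n` variables: the leaves are constants, variables and negated
variables. -/
inductive Formula (n : ℕ) : Type
  | const (b : Bool) : Formula n
  | var (i : Fin n) : Formula n
  | neg (i : Fin n) : Formula n
  | and (F G : Formula n) : Formula n
  | or (F G : Formula n) : Formula n

/-- The function computed by a formula. -/
def Formula.eval {n : ℕ} : Formula n → BF n
  | .const b => fun _ => b
  | .var i => fun x => x i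
  | .neg i => fun x => !x i
  | .and F G => fun x => F.eval x && G.eval x
  | .or F G => fun x => F.eval x || G.eval x

/-- The size of a formula: the number of its leaves labelled by a variable or a negated variable. -/
def Formula.size {n : ℕ} : Formula n → ℕ
  | .const _ => 0
  | .var _ => 1
  | .neg _ => 1
  | .and F G => F.size + G.size
  | .or F G => F.size + G.size

/-- The yes-instances of the Minimum Formula Size Problem. -/
def MFSP (n : ℕ) (T : List Bool) (s : ℕ) : Prop :=
  T.length = 2 ^ n ∧ ∃ F : Formula n, T = table n F.eval ∧ F.size ≤ s

end Pool.Agent.H532R2.MF
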