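import Pool.Agent.H532R2.MF.FL

/-!
# The number of functions with small formulas
-/

namespace Pool.Agent.H532R2.MF

open Finset Pool.Agent.H532R2.MC

section

variable {n : ℕ}

/-- The function has a formula without constants and with exactly the given number of leaves. -/
inductive Ex (n : ℕ) : BF n → ℕ → Prop
  | lit (i : Fin n) (b : Bool) : Ex n (fun x => x i ^^ b) 1
  | and {f g : BF n} {s t : ℕ} : Ex n f s → Ex n g t → Ex n (fun x => f x && g x) (s + t)
  | or {f g : BF n} {s t : ℕ} : Ex n f s → Ex n g t → Ex n (fun x => f x || g x) (s + t)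

theorem Ex.pos {f : BF n} {s : ℕ} (h : Ex n f s) : 1 ≤ s := by
  induction h with
  | lit => exact le_rfl
  | and _ _ h1 h2 => omega
  | or _ _ h1 h2 => omega

theorem FL.ex {f : BF n} {s : ℕ} (h : FL (vars n) f s) :
    (∃ b, f = fun _ => b) ∨ ∃ s' ≤ s, Ex n f s' := by
  induction h with
  | const b => exact Or.inl ⟨b, rfl⟩
  | @lit f b hf =>
    obtain ⟨i, rfl⟩ := hf
    exact Or.inr ⟨1, le_rfl, Ex.lit i b⟩
  | @and f g s t _ _ h1 h2 =>
    rcases h1 with ⟨b, rfl⟩ | ⟨s', hs', h1⟩
    · cases b
      · exact Or.inl ⟨false, by funext x; simp⟩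
      · have : (fun x => (fun _ => true) x && g x) = g := by funext x; simp
        rw [this]
        rcases h2 with h2 | ⟨t', ht', h2⟩
        · exact Or.inl h2
        · exact Or.inr ⟨t', by omega, h2⟩
    · rcases h2 with ⟨b, rfl⟩ | ⟨t', ht', h2⟩
      · cases b
        · exact Or.inl ⟨false, by funext x; simp⟩
        · have : (fun x => f x && (fun _ => true) x) = f := by funext x; simp
          rw [this]
          exact Or.inr ⟨s', by omega, h1⟩
      · exact Or.inr ⟨s' + t', by omega, Ex.and h1 h2⟩
  | @or f g s t _ _ h1 h2 =>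
    rcases h1 with ⟨b, rfl⟩ | ⟨s', hs', h1⟩
    · cases b
      · have : (fun x => (fun _ => false) x || g x) = g := by funext x; simp
        rw [this]
        rcases h2 with h2 | ⟨t', ht', h2⟩
        · exact Or.inl h2
        · exact Or.inr ⟨t', by omega, h2⟩
      · exact Or.inl ⟨true, by funext x; simp⟩
    · rcases h2 with ⟨b, rfl⟩ | ⟨t', ht', h2⟩
      · cases b
        · have : (fun x => f x || (fun _ => false) x) = f := by funext x; simp
          rw [this]
          exact Or.inr ⟨s', by omega, h1⟩
        · exact Or.inl ⟨true, by funext x; simp⟩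
      · exact Or.inr ⟨s' + t', by omega, Ex.or h1 h2⟩
  | weak _ hst h =>
    rcases h with h | ⟨s', hs', h⟩
    · exact Or.inl h
    · exact Or.inr ⟨s', hs'.trans hst, h⟩

open Classical in
/-- The functions with a formula with exactly `s` leaves. -/
noncomputable def exact (n s : ℕ) : Finset (BF n) := univ.filter fun f => Ex n f s

open Classical in
/-- The functions with formulas of size at most `s`. -/
noncomputable def small (n s : ℕ) : Finset (BF n) := univ.filter fun f => FL (vars n) f s

theorem exact_one (n : ℕ) : (exact n 1).card ≤ 2 * n := by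
  classical
  have h1 : exact n 1 ⊆ (univ : Finset (Fin n × Bool)).image fun p x => x p.1 ^^ p.2 := by
    intro f hf
    have h2 := (Finset.mem_filter.1 hf).2
    rw [Finset.mem_image]
    generalize hs : (1 : ℕ) = s at h2
    cases h2 with
    | lit i b => exact ⟨(i, b), Finset.mem_univ _, rfl⟩
    | and h3 h4 =>
      have := h3.pos
      have := h4.pos
      omega
    | or h3 h4 =>
      have := h3.pos
      have := h4.pos
      omega
  refine (Finset.card_le_card h1).trans (Finset.card_image_le.trans (le_of_eq ?_))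
  rw [Finset.card_univ, Fintype.card_prod, Fintype.card_fin, Fintype.card_bool, mul_comm]

theorem exact_succ (n s : ℕ) : (exact n (s + 2)).card ≤
    ∑ p ∈ antidiagonal s, 2 * ((exact n (p.1 + 1)).card * (exact n (p.2 + 1)).card) := by
  classical
  have h1 : exact n (s + 2) ⊆ (antidiagonal s).biUnion fun p =>
      ((exact n (p.1 + 1) ×ˢ exact n (p.2 + 1)).image fun q x => q.1 x && q.2 x) ∪
      ((exact n (p.1 + 1) ×ˢ exact n (p.2 + 1)).image fun q x => q.1 x || q.2 x) := by
    intro f hf
    have h2 := (Finset.mem_filter.1 hf).2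
    rw [Finset.mem_biUnion]
    generalize hs : s + 2 = s' at h2
    cases h2 with
    | lit i b => omega
    | @and f g a b h3 h4 =>
      have := h3.pos
      have := h4.pos
      refine ⟨(a - 1, b - 1), by rw [HasAntidiagonal.mem_antidiagonal]; omega, ?_⟩
      refine Finset.mem_union_left _ (Finset.mem_image.2 ⟨(f, g), ?_, rfl⟩)
      rw [Finset.mem_product]
      refine ⟨Finset.mem_filter.2 ⟨Finset.mem_univ _, ?_⟩,
        Finset.mem_filter.2 ⟨Finset.mem_univ _, ?_⟩⟩
      · rw [show a - 1 + 1 = a by omega]; exact h3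
      · rw [show b - 1 + 1 = b by omega]; exact h4
    | @or f g a b h3 h4 =>
      have := h3.pos
      have := h4.pos
      refine ⟨(a - 1, b - 1), by rw [HasAntidiagonal.mem_antidiagonal]; omega, ?_⟩
      refine Finset.mem_union_right _ (Finset.mem_image.2 ⟨(f, g), ?_, rfl⟩)
      rw [Finset.mem_product]
      refine ⟨Finset.mem_filter.2 ⟨Finset.mem_univ _, ?_⟩,
        Finset.mem_filter.2 ⟨Finset.mem_univ _, ?_⟩⟩
      · rw [show a - 1 + 1 = a by omega]; exact h3
      · rw [show b - 1 + 1 = b by omega]; exact h4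
  refine (Finset.card_le_card h1).trans (Finset.card_biUnion_le.trans (Finset.sum_le_sum
    fun p _ => ?_))
  refine (Finset.card_union_le _ _).trans ?_
  rw [two_mul, ← Finset.card_product]
  exact Nat.add_le_add Finset.card_image_le Finset.card_image_le

theorem exact_card (n : ℕ) : ∀ s, (exact n (s + 1)).card ≤ catalan s * 2 ^ s * (2 * n) ^ (s + 1) := by
  intro s
  induction s using Nat.strong_induction_on with
  | _ s ih =>
    rcases s with _ | s
    · simpa using exact_one n
    · refine (exact_succ n s).trans ?_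
      rw [catalan_succ', Finset.sum_mul, Finset.sum_mul]
      refine Finset.sum_le_sum fun p hp => ?_
      have hp' := HasAntidiagonal.mem_antidiagonal.1 hp
      have h1 := ih p.1 (by omega)
      have h2 := ih p.2 (by omega)
      calc 2 * ((exact n (p.1 + 1)).card * (exact n (p.2 + 1)).card)
          ≤ 2 * ((catalan p.1 * 2 ^ p.1 * (2 * n) ^ (p.1 + 1)) *
            (catalan p.2 * 2 ^ p.2 * (2 * n) ^ (p.2 + 1))) := by gcongr
        _ = catalan p.1 * catalan p.2 * 2 ^ (s + 1) * (2 * n) ^ (s + 1 + 1) := by
          rw [← hp']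
          ring

theorem catalan_le (s : ℕ) : catalan s ≤ 4 ^ s := by
  rw [catalan_eq_centralBinom_div]
  refine (Nat.div_le_self _ _).trans ?_
  rw [Nat.centralBinom]
  refine (Nat.choose_le_two_pow _ _).trans (le_of_eq ?_)
  rw [pow_mul]
  norm_num

theorem small_card (n s : ℕ) (hn : 1 ≤ n) : (small n s).card ≤ 2 + s * (16 * n) ^ s := by
  classical
  have h1 : small n s ⊆ (univ : Finset Bool).image (fun b _ => b) ∪
      (range s).biUnion fun a => exact n (a + 1) := by
    intro f hf
    rcases (Finset.mem_filter.1 hf).2.ex with ⟨b, rfl⟩ | ⟨s', hs', h⟩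
    · exact Finset.mem_union_left _ (Finset.mem_image.2 ⟨b, Finset.mem_univ _, rfl⟩)
    · have := h.pos
      refine Finset.mem_union_right _ (Finset.mem_biUnion.2 ⟨s' - 1, ?_, ?_⟩)
      · rw [Finset.mem_range]; omega
      · rw [show s' - 1 + 1 = s' by omega]
        exact Finset.mem_filter.2 ⟨Finset.mem_univ _, h⟩
  refine (Finset.card_le_card h1).trans ((Finset.card_union_le _ _).trans ?_)
  refine Nat.add_le_add (Finset.card_image_le.trans (by simp)) ?_
  refine Finset.card_biUnion_le.trans ((Finset.sum_le_card_nsmul _ _ ((16 * n) ^ s)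
    fun a ha => ?_).trans (by rw [Finset.card_range, smul_eq_mul]))
  have ha' := Finset.mem_range.1 ha
  calc (exact n (a + 1)).card ≤ catalan a * 2 ^ a * (2 * n) ^ (a + 1) := exact_card n a
    _ ≤ 4 ^ a * 2 ^ a * (2 * n) ^ (a + 1) := by gcongr; exact catalan_le a
    _ = 8 ^ a * (2 * n) ^ (a + 1) := by rw [← mul_pow]; norm_num
    _ ≤ 8 ^ (a + 1) * (2 * n) ^ (a + 1) := by gcongr <;> omega
    _ = (16 * n) ^ (a + 1) := by rw [← mul_pow]; ring
    _ ≤ (16 * n) ^ s := Nat.pow_le_pow_right (by omega) (by omega)

end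

end Pool.Agent.H532R2.MF
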