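import Pool.Agent.H532R2.MF.FL
import Pool.Agent.H532R2.MC.HashCost

/-!
# The formula size of the functions with small bias
-/

namespace Pool.Agent.H532R2.MF

open Finset Pool.Agent.H532R2.MC

section

variable {ν : ℕ}

theorem FL.xorConst {α : Type} {B : Set (α → Bool)} {f : α → Bool} {s : ℕ} (h : FL B f s)
    (b : Bool) : FL B (fun x => f x ^^ b) s := by
  cases b
  · exact h.congr fun x => by simp
  · exact h.not.congr fun x => by simp

theorem foldr_xor_init (l : List Bool) (b : Bool) :
    l.foldr xor b = (l.foldr Bool.xor false ^^ b) := by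
  induction l with
  | nil => simp
  | cons a l ih => simp [ih]

theorem fl_var (i : Fin ν) : FL (vars ν) (fun w => w i) 1 := FL.of_mem ⟨i, rfl⟩

theorem fl_lin {τ : ℕ} (hτ : ν ≤ 2 ^ τ) (r : Row ν) : FL (vars ν) (lin r) (4 ^ τ) := by
  have h1 := FL.xorList (B := vars ν) (c := 1) τ
    ((List.finRange ν).map fun i => fun w : Fin ν → Bool => r.1 i && w i)
    (by rw [List.length_map, List.length_finRange]; exact hτ) (by
      intro f hf
      obtain ⟨i, _, rfl⟩ := List.mem_map.1 hf
      cases h : r.1 i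
      · exact ((FL.const false).weak (by omega)).congr fun w => by simp
      · exact (fl_var i).congr fun w => by simp)
  refine ((h1.xorConst r.2).weak (by omega)).congr fun w => ?_
  unfold lin
  rw [foldr_xor_init _ r.2, List.map_map]
  rfl

theorem fl_hf {τ : ℕ} (hτ : ν ≤ 2 ^ τ) (h : Hash ν) :
    FL (vars ν) (hf h) ((ν + 2) * 4 ^ τ) := by
  classical
  obtain ⟨i, A⟩ := h
  have h1 : ∀ j ∈ (univ : Finset (Fin (ν + 2))), FL (vars ν)
      (fun w => if (j : ℕ) < i + 2 then !(lin (A j) w) else true) (4 ^ τ) := by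
    intro j _
    split_ifs
    · exact (fl_lin hτ (A j)).not
    · exact (FL.const true).weak (Nat.zero_le _)
  refine (FL.bigAnd (g := hf (i, A)) (univ : Finset (Fin (ν + 2))) h1 fun w => ?_).weak ?_
  · rw [hf_iff]
    constructor
    · intro h j _
      split_ifs with hj
      · rw [h j hj]; rfl
      · rfl
    · intro h j hj
      have := h j (Finset.mem_univ j)
      rw [if_pos hj] at this
      simpa using this
  · rw [Finset.sum_const, Finset.card_univ, Fintype.card_fin, smul_eq_mul]

theorem fl_bf {τ : ℕ} (hτ : ν ≤ 2 ^ τ) (c : Base ν) :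
    FL (vars ν) (bf c) ((ν + 2) * 4 ^ τ) := by
  obtain ⟨b, h⟩ := c
  cases b
  · exact ((FL.const false).weak (Nat.zero_le _)).congr fun w => by simp [bf]
  · exact (fl_hf hτ h).congr fun w => by simp [bf]

theorem fl_ef {τ κ : ℕ} (hτ : ν ≤ 2 ^ τ) (ω : Fin (2 ^ κ) → Base ν) :
    FL (vars ν) (ef ω) (4 ^ κ * ((ν + 2) * 4 ^ τ)) := by
  have h1 := FL.xorList (B := vars ν) (c := (ν + 2) * 4 ^ τ) κ
    (List.ofFn fun j => bf (ω j)) (by rw [List.length_ofFn]) (by
      intro f hf
      obtain ⟨j, rfl⟩ := List.mem_ofFn.1 hf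
      exact fl_bf hτ _)
  refine h1.congr fun w => ?_
  unfold ef
  rw [List.map_ofFn]
  rfl

end

end Pool.Agent.H532R2.MF
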