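import Pool.Agent.H532R2.MF.FDefs

/-!
# Formulas over a set of functions
-/

namespace Pool.Agent.H532R2.MF

open Finset Pool.Agent.H532R2.MC

/-- The function has a formula with at most the given number of leaves labelled by functions of
`B` or their negations. -/
inductive FL {α : Type} (B : Set (α → Bool)) : (α → Bool) → ℕ → Prop
  | const (b : Bool) : FL B (fun _ => b) 0
  | lit {f : α → Bool} (b : Bool) : f ∈ B → FL B (fun x => f x ^^ b) 1
  | and {f g : α → Bool} {s t : ℕ} : FL B f s → FL B g t → FL B (fun x => f x && g x) (s + t)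
  | or {f g : α → Bool} {s t : ℕ} : FL B f s → FL B g t → FL B (fun x => f x || g x) (s + t)
  | weak {f : α → Bool} {s t : ℕ} : FL B f s → s ≤ t → FL B f t

/-- The variables. -/
def vars (n : ℕ) : Set (BF n) := Set.range fun (i : Fin n) (x : Fin n → Bool) => x i

theorem fl_iff {n : ℕ} {f : BF n} {s : ℕ} :
    FL (vars n) f s ↔ ∃ F : Formula n, F.eval = f ∧ F.size ≤ s := by
  constructor
  · intro h
    induction h with
    | const b => exact ⟨.const b, rfl, le_rfl⟩
    | @lit f b hf =>
      obtain ⟨i, rfl⟩ := hf
      cases b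
      · exact ⟨.var i, by funext x; simp [Formula.eval], le_rfl⟩
      · exact ⟨.neg i, by funext x; simp [Formula.eval], le_rfl⟩
    | and _ _ ih1 ih2 =>
      obtain ⟨F, rfl, h1⟩ := ih1
      obtain ⟨G, rfl, h2⟩ := ih2
      exact ⟨.and F G, rfl, Nat.add_le_add h1 h2⟩
    | or _ _ ih1 ih2 =>
      obtain ⟨F, rfl, h1⟩ := ih1
      obtain ⟨G, rfl, h2⟩ := ih2
      exact ⟨.or F G, rfl, Nat.add_le_add h1 h2⟩
    | weak _ hst ih =>
      obtain ⟨F, h0, h1⟩ := ih
      exact ⟨F, h0, h1.trans hst⟩
  · rintro ⟨F, rfl, h⟩
    refine FL.weak ?_ h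
    clear h
    induction F with
    | const b => exact FL.const b
    | var i =>
      have := FL.lit (B := vars n) false ⟨i, rfl⟩
      simpa [Formula.eval, Formula.size] using this
    | neg i =>
      have := FL.lit (B := vars n) true ⟨i, rfl⟩
      simpa [Formula.eval, Formula.size] using this
    | and F G ih1 ih2 => exact FL.and ih1 ih2
    | or F G ih1 ih2 => exact FL.or ih1 ih2

variable {α β : Type} {B : Set (α → Bool)} {f g : α → Bool} {s t : ℕ}

theorem FL.congr (h : FL B f s) (e : ∀ x, f x = g x) : FL B g s := by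
  have : f = g := funext e
  rwa [← this]

theorem FL.of_mem (h : f ∈ B) : FL B f 1 := (FL.lit false h).congr fun x => by simp

theorem FL.not (h : FL B f s) : FL B (fun x => !f x) s := by
  induction h with
  | const b => exact FL.const (!b)
  | @lit f b hf => exact (FL.lit (!b) hf).congr fun x => by simp
  | and _ _ ih1 ih2 => exact (ih1.or ih2).congr fun x => by simp
  | or _ _ ih1 ih2 => exact (ih1.and ih2).congr fun x => by simp
  | weak _ hst ih => exact ih.weak hst

theorem FL.xor (hf : FL B f s) (hg : FL B g t) : FL B (fun x => f x ^^ g x) (2 * s + 2 * t) := by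
  refine (((hf.and hg.not).or (hf.not.and hg)).weak (by omega)).congr fun x => ?_
  cases f x <;> cases g x <;> rfl

theorem FL.ite {e : α → Bool} {r : ℕ} (he : FL B e r) (hf : FL B f s) (hg : FL B g t) :
    FL B (fun x => if e x then f x else g x) (2 * r + s + t) := by
  refine (((he.and hf).or (he.not.and hg)).weak (by omega)).congr fun x => ?_
  cases e x <;> simp

/-- Large disjunctions. -/
theorem FL.bigOr {ι : Type} (I : Finset ι) {f : ι → α → Bool} {c : ι → ℕ}
    (h : ∀ i ∈ I, FL B (f i) (c i)) {g : α → Bool}
    (hg : ∀ x, g x = Bool.true ↔ ∃ i ∈ I, f i x = Bool.true) : FL B g (∑ i ∈ I, c i) := by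
  classical
  induction I using Finset.induction_on generalizing g with
  | empty =>
    refine (FL.const false).congr fun x => ?_
    have := hg x
    simp at this
    exact this.symm
  | insert a I ha ih =>
    rw [Finset.sum_insert ha]
    refine ((h a (Finset.mem_insert_self _ _)).or
      (ih (g := fun x => decide (∃ i ∈ I, f i x = Bool.true))
        (fun i hi => h i (Finset.mem_insert_of_mem hi))
        (fun x => decide_eq_true_iff))).congr fun x => ?_
    rw [Bool.eq_iff_iff, hg x, Bool.or_eq_true, decide_eq_true_iff]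
    simp

/-- Large conjunctions. -/
theorem FL.bigAnd {ι : Type} (I : Finset ι) {f : ι → α → Bool} {c : ι → ℕ}
    (h : ∀ i ∈ I, FL B (f i) (c i)) {g : α → Bool}
    (hg : ∀ x, g x = Bool.true ↔ ∀ i ∈ I, f i x = Bool.true) : FL B g (∑ i ∈ I, c i) := by
  classical
  induction I using Finset.induction_on generalizing g with
  | empty =>
    refine (FL.const true).congr fun x => ?_
    have := hg x
    simp at this
    exact this.symm
  | insert a I ha ih =>
    rw [Finset.sum_insert ha]
    refine ((h a (Finset.mem_insert_self _ _)).and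
      (ih (g := fun x => decide (∀ i ∈ I, f i x = Bool.true))
        (fun i hi => h i (Finset.mem_insert_of_mem hi))
        (fun x => decide_eq_true_iff))).congr fun x => ?_
    rw [Bool.eq_iff_iff, hg x, Bool.and_eq_true, decide_eq_true_iff]
    simp

/-- Substitution. -/
theorem FL.precomp {B' : Set (β → Bool)} (h : FL B f s) (φ : β → α)
    (hB : ∀ g ∈ B, FL B' (fun x => g (φ x)) 1) : FL B' (fun x => f (φ x)) s := by
  induction h with
  | const b => exact FL.const b
  | @lit f b hf =>
    cases b
    · exact (hB f hf).congr fun x => by simp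
    · exact (hB f hf).not.congr fun x => by simp
  | and _ _ ih1 ih2 => exact ih1.and ih2
  | or _ _ ih1 ih2 => exact ih1.or ih2
  | weak _ hst ih => exact ih.weak hst

/-- Parities of lists of functions. -/
theorem FL.xorList {c : ℕ} (τ : ℕ) : ∀ (l : List (α → Bool)), l.length ≤ 2 ^ τ →
    (∀ f ∈ l, FL B f c) → FL B (fun x => (l.map fun f => f x).foldr Bool.xor false) (4 ^ τ * c) := by
  induction τ with
  | zero =>
    intro l hl h
    match l, hl with
    | [], _ => exact (FL.const false).weak (by omega)
    | [f], _ => exact (h f (by simp)).congr (fun x => by simp) |>.weak (by omega)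
    | f :: g :: l, hl => simp at hl
  | succ τ ih =>
    intro l hl h
    have h1 := ih (l.take (2 ^ τ)) (by simp) fun f hf => h f (List.mem_of_mem_take hf)
    have h2 := ih (l.drop (2 ^ τ)) (by rw [List.length_drop, pow_succ] at *; omega)
      fun f hf => h f (List.mem_of_mem_drop hf)
    refine ((h1.xor h2).weak (by rw [pow_succ]; ring_nf; exact le_rfl)).congr fun x => ?_
    have key : ∀ l₁ l₂ : List Bool, (l₁ ++ l₂).foldr Bool.xor false =
        (l₁.foldr Bool.xor false ^^ l₂.foldr Bool.xor false) := by
      intro l₁ l₂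
      induction l₁ with
      | nil => simp
      | cons a l₁ ih => simp [ih]
    rw [← key, ← List.map_append, List.take_append_drop]

/-- Decision trees. -/
theorem FL.tree (p : ℕ) : ∀ (v : Fin p → α → Bool), (∀ j, v j ∈ B) →
    ∀ (G : (Fin p → Bool) → α → Bool) (c : (Fin p → Bool) → ℕ), (∀ w, FL B (G w) (c w)) →
    FL B (fun z => G (fun j => v j z) z) (∑ w, c w + 2 * (2 ^ p - 1)) := by
  induction p with
  | zero =>
    intro v _ G c hG
    have h1 : ∀ w : Fin 0 → Bool, w = Fin.elim0 := fun w => Subsingleton.elim _ _
    have h2 : ∑ w, c w = c Fin.elim0 := by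
      rw [Fintype.sum_subsingleton _ Fin.elim0]
    rw [h2]
    refine ((hG Fin.elim0).weak (by omega)).congr fun z => ?_
    rw [h1 (fun j => v j z)]
  | succ p ih =>
    intro v hv G c hG
    have h1 := fun b => ih (fun j => v j.succ) (fun j => hv j.succ)
      (fun w => G (Fin.cons b w)) (fun w => c (Fin.cons b w)) (fun w => hG _)
    have h2 : ∑ w, c w = ∑ w, c (Fin.cons true w) + ∑ w, c (Fin.cons false w) := by
      rw [← (Fin.consEquiv (fun _ : Fin (p + 1) => Bool)).sum_comp, Fintype.sum_prod_type,
        Fintype.sum_bool]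
      rfl
    rw [h2]
    refine ((FL.ite (FL.of_mem (hv 0)) (h1 true) (h1 false)).weak ?_).congr fun z => ?_
    · have := Nat.one_le_two_pow (n := p)
      rw [pow_succ]
      omega
    · have : (fun j => v j z) = Fin.cons (v 0 z) fun j => v j.succ z := by
        funext j
        refine Fin.cases ?_ (fun i => ?_) j <;> simp
      rw [this]
      cases v 0 z <;> simp

end Pool.Agent.H532R2.MF
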