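import Mathlib

/-!
# Numerical estimates
-/

namespace Pool.Agent.H532R2.MF

theorem lin_le (r : ℕ) (h : 6 ≤ r) : 7 * r + 20 ≤ 2 ^ (r + 1) := by
  induction r, h using Nat.le_induction with
  | base => norm_num
  | succ r h ih => rw [pow_succ]; omega

theorem params {j : ℕ} (hj : 2 ^ 60 ≤ j) : ∃ r p ℓ κ : ℕ, p + 2 ^ r = j ∧ ℓ + 7 = r ∧ 59 ≤ r ∧
    2 ^ (r + 1) ≤ j ∧ j < 2 ^ (r + 2) ∧ 2 * κ + 5 * r + 3 ≤ j ∧ j ≤ 2 * κ + 5 * r + 4 ∧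
    ℓ + j + 2 ≤ 2 ^ (r + 3) ∧ 2 * r ≤ p ∧ r + 8 ≤ κ ∧ ℓ + 1 + j ≤ j + Nat.log 2 j := by
  have h0 : j ≠ 0 := by
    have : 0 < 2 ^ 60 := by norm_num
    omega
  have h60 : 60 ≤ Nat.log 2 j := (Nat.le_log_iff_pow_le (by norm_num) h0).2 hj
  obtain ⟨r, hr⟩ : ∃ r, Nat.log 2 j = r + 1 := ⟨Nat.log 2 j - 1, by omega⟩
  have h1 : 2 ^ (r + 1) ≤ j := by rw [← hr]; exact Nat.pow_log_le_self 2 h0
  have h2 : j < 2 ^ (r + 2) := by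
    have := Nat.lt_pow_succ_log_self (b := 2) (by norm_num) j
    rwa [hr] at this
  have h3 := lin_le r (by omega)
  have h4 : 2 ^ (r + 1) = 2 * 2 ^ r := by rw [pow_succ]; ring
  have h5 : 2 ^ (r + 2) = 4 * 2 ^ r := by rw [pow_add]; ring
  have h6 : 2 ^ (r + 3) = 8 * 2 ^ r := by rw [pow_add]; ring
  refine ⟨r, j - 2 ^ r, r - 7, (j - 5 * r - 3) / 2, ?_, ?_, ?_, h1, h2, ?_, ?_, ?_, ?_, ?_, ?_⟩ <;>
    omega

/-- The total size of the formulas. -/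
theorem size_bound {r p ℓ κ j C : ℕ} (hpj : p + 2 ^ r = j) (hℓ : ℓ + 7 = r) (hκ : 2 * κ + 5 * r + 3 ≤ j)
    (hν : ℓ + j + 2 ≤ 2 ^ (r + 3)) (hp : 2 * r ≤ p) (hC : C * 2 ^ r = 2 ^ 2 ^ r) :
    16 * (2 ^ ℓ * (ℓ * (4 + 2 * (4 ^ κ * ((ℓ + j + 2) * 4 ^ (r + 3))))) +
      2 ^ ℓ * (C * (2 ^ r * 2 ^ r + 2 * 2 ^ p)) + 2 ^ p * 2 ^ 2 ^ r) ≤ 17 * 2 ^ j := by
  have hD : 2 ^ p * 2 ^ 2 ^ r = 2 ^ j := by rw [← pow_add, hpj]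
  -- the second term
  have hB : 128 * (2 ^ ℓ * (C * (2 ^ r * 2 ^ r + 2 * 2 ^ p))) ≤ 3 * 2 ^ j := by
    have e1 : 128 * (2 ^ ℓ * (C * (2 ^ r * 2 ^ r + 2 * 2 ^ p))) =
        (C * 2 ^ r) * (2 ^ r * 2 ^ r + 2 * 2 ^ p) := by
      rw [← hℓ, pow_add 2 ℓ 7]
      ring
    rw [e1, hC]
    have e2 : 2 ^ r * 2 ^ r ≤ 2 ^ p := by
      rw [← pow_add]
      exact Nat.pow_le_pow_right (by norm_num) (by omega)
    calc 2 ^ 2 ^ r * (2 ^ r * 2 ^ r + 2 * 2 ^ p) ≤ 2 ^ 2 ^ r * (2 ^ p + 2 * 2 ^ p) := by gcongr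
      _ = 3 * (2 ^ p * 2 ^ 2 ^ r) := by ring
      _ = 3 * 2 ^ j := by rw [hD]
  -- the first term
  have hA : 64 * (2 ^ ℓ * (ℓ * (4 + 2 * (4 ^ κ * ((ℓ + j + 2) * 4 ^ (r + 3)))))) ≤ 2 ^ j := by
    have e3 : ℓ ≤ 2 ^ ℓ := Nat.lt_two_pow_self.le
    have e4 : 4 ^ κ * ((ℓ + j + 2) * 4 ^ (r + 3)) ≤ 2 ^ (2 * κ + 3 * r + 9) := by
      calc 4 ^ κ * ((ℓ + j + 2) * 4 ^ (r + 3)) ≤ 4 ^ κ * (2 ^ (r + 3) * 4 ^ (r + 3)) := by gcongr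
        _ = 2 ^ (2 * κ + 3 * r + 9) := by
          rw [show (4 : ℕ) = 2 ^ 2 by norm_num, ← pow_mul, ← pow_mul, ← pow_add, ← pow_add]
          congr 1
          ring
    have e5 : 4 + 2 * (4 ^ κ * ((ℓ + j + 2) * 4 ^ (r + 3))) ≤ 2 ^ (2 * κ + 3 * r + 11) := by
      have : 4 ≤ 2 ^ (2 * κ + 3 * r + 9) := by
        calc 4 = 2 ^ 2 := by norm_num
          _ ≤ _ := Nat.pow_le_pow_right (by norm_num) (by omega)
      have e6 : 2 ^ (2 * κ + 3 * r + 11) = 4 * 2 ^ (2 * κ + 3 * r + 9) := by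
        rw [show 2 * κ + 3 * r + 11 = 2 * κ + 3 * r + 9 + 2 by ring, pow_add]; ring
      omega
    calc 64 * (2 ^ ℓ * (ℓ * (4 + 2 * (4 ^ κ * ((ℓ + j + 2) * 4 ^ (r + 3))))))
        ≤ 2 ^ 6 * (2 ^ ℓ * (2 ^ ℓ * 2 ^ (2 * κ + 3 * r + 11))) := by gcongr; norm_num
      _ = 2 ^ (6 + (ℓ + (ℓ + (2 * κ + 3 * r + 11)))) := by rw [← pow_add, ← pow_add, ← pow_add]
      _ ≤ 2 ^ j := Nat.pow_le_pow_right (by norm_num) (by omega)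
  rw [hD]
  omega

/-- The exceptional pairs are negligible. -/
theorem few_exceptions {r ℓ j ν s X c : ℕ} (hr : 59 ≤ r) (hℓ : ℓ + 7 = r) (hj : 59 ≤ j)
    (hν : ν + 1 ≤ 2 ^ (r + 3)) (hs : 2 * s ≤ 3 * 2 ^ j) (hs2 : 2 ≤ s) (hX : X + 4 ≤ 2 ^ j)
    (hc : c ≤ 2 + s * (16 * (ν + 1)) ^ s) :
    c * 2 ^ (X + 4) ≤ 2 ^ (2 * (2 ^ j * ℓ)) := by
  have h1 : c ≤ 2 ^ ((r + 8) * s) := by
    have e1 : (16 * (ν + 1)) ^ s ≤ 2 ^ ((r + 7) * s) := by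
      rw [pow_mul]
      refine Nat.pow_le_pow_left ?_ s
      calc 16 * (ν + 1) ≤ 16 * 2 ^ (r + 3) := by gcongr
        _ = 2 ^ (r + 7) := by rw [show (16 : ℕ) = 2 ^ 4 by norm_num, ← pow_add]; congr 1; ring
    have e2 : 2 ≤ 2 ^ ((r + 7) * s) := by
      calc 2 = 2 ^ 1 := by norm_num
        _ ≤ _ := Nat.pow_le_pow_right (by norm_num) (Nat.mul_pos (by omega) (by omega))
    have e3 : s + 1 ≤ 2 ^ s := Nat.lt_two_pow_self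
    calc c ≤ 2 + s * (16 * (ν + 1)) ^ s := hc
      _ ≤ 2 ^ ((r + 7) * s) + s * 2 ^ ((r + 7) * s) := by gcongr
      _ = (s + 1) * 2 ^ ((r + 7) * s) := by ring
      _ ≤ 2 ^ s * 2 ^ ((r + 7) * s) := by gcongr
      _ = 2 ^ ((r + 8) * s) := by rw [← pow_add]; congr 1; ring
  calc c * 2 ^ (X + 4) ≤ 2 ^ ((r + 8) * s) * 2 ^ (2 ^ j) := by
        refine Nat.mul_le_mul h1 (Nat.pow_le_pow_right (by norm_num) hX)
    _ = 2 ^ ((r + 8) * s + 2 ^ j) := by rw [← pow_add]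
    _ ≤ 2 ^ (2 * (2 ^ j * ℓ)) := by
      refine Nat.pow_le_pow_right (by norm_num) ?_
      have e4 : 2 * ((r + 8) * s) ≤ (r + 8) * (3 * 2 ^ j) := by
        calc 2 * ((r + 8) * s) = (r + 8) * (2 * s) := by ring
          _ ≤ _ := Nat.mul_le_mul_left _ hs
      have e5 : (r + 8) * (3 * 2 ^ j) + 2 * 2 ^ j ≤ 4 * (2 ^ j * ℓ) := by
        calc (r + 8) * (3 * 2 ^ j) + 2 * 2 ^ j = 2 ^ j * (3 * r + 26) := by ring
          _ ≤ 2 ^ j * (4 * ℓ) := Nat.mul_le_mul_left _ (by omega)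
          _ = _ := by ring
      omega

/-- The bias of the shifts is small. -/
theorem bias_small {r κ ν : ℕ} (hν : ν + 1 ≤ 2 ^ (r + 3)) (hκ : r + 8 ≤ κ) :
    (1 - 3 / (16 * ((ν : ℝ) + 1))) ^ (2 ^ κ) ≤ 1 / 2 ^ (2 ^ (κ - r - 6) + 2) := by
  have hν0 : (0 : ℝ) < (ν : ℝ) + 1 := by positivity
  have h1 : 1 - 3 / (16 * ((ν : ℝ) + 1)) ≤ Real.exp (-(3 / (16 * ((ν : ℝ) + 1)))) := by
    have := Real.add_one_le_exp (-(3 / (16 * ((ν : ℝ) + 1))))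
    linarith
  have h0 : 0 ≤ 1 - 3 / (16 * ((ν : ℝ) + 1)) := by
    have : 3 / (16 * ((ν : ℝ) + 1)) ≤ 1 := by
      rw [div_le_one (by positivity)]
      have : (0 : ℝ) ≤ ν := Nat.cast_nonneg ν
      linarith
    linarith
  refine (pow_le_pow_left₀ h0 h1 _).trans ?_
  rw [← Real.exp_nat_mul]
  set X := 2 ^ (κ - r - 6) with hX
  have hX4 : (4 : ℝ) ≤ X := by
    have : 4 ≤ X := by
      calc 4 = 2 ^ 2 := by norm_num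
        _ ≤ X := Nat.pow_le_pow_right (by norm_num) (by omega)
    exact_mod_cast this
  have key : ((X : ℝ) + 2) ≤ ((2 ^ κ : ℕ) : ℝ) * (3 / (16 * ((ν : ℝ) + 1))) := by
    have e1 : 2 ^ κ = X * 2 ^ (r + 6) := by rw [hX, ← pow_add]; congr 1; omega
    have e2 : (16 : ℝ) * ((ν : ℝ) + 1) ≤ 2 * 2 ^ (r + 6) := by
      have : 16 * (ν + 1) ≤ 2 * 2 ^ (r + 6) := by
        have e3 : 2 * 2 ^ (r + 6) = 16 * 2 ^ (r + 3) := by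
          rw [show r + 6 = r + 3 + 3 by ring, pow_add 2 (r + 3) 3]; ring
        omega
      exact_mod_cast this
    rw [e1]
    push_cast
    have e4 : (3 : ℝ) / (2 * 2 ^ (r + 6)) ≤ 3 / (16 * ((ν : ℝ) + 1)) :=
      div_le_div_of_nonneg_left (by norm_num) (by positivity) e2
    calc (X : ℝ) + 2 ≤ X * (3 / 2) := by linarith
      _ = X * 2 ^ (r + 6) * (3 / (2 * 2 ^ (r + 6))) := by field_simp
      _ ≤ _ := mul_le_mul_of_nonneg_left e4 (by positivity)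
  have h12 : Real.exp (((2 ^ κ : ℕ) : ℝ) * -(3 / (16 * ((ν : ℝ) + 1)))) ≤
      Real.exp (-((X : ℝ) + 2)) := by
    refine Real.exp_le_exp.2 ?_
    linarith
  refine h12.trans ?_
  rw [Real.exp_neg, one_div]
  refine inv_anti₀ (by positivity) ?_
  have h13 : (2 : ℝ) ^ (X + 2) ≤ Real.exp 1 ^ (X + 2) := by
    refine pow_le_pow_left₀ (by norm_num) ?_ _
    have := Real.exp_one_gt_d9
    linarith
  refine h13.trans (le_of_eq ?_)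
  rw [← Real.exp_nat_mul]
  push_cast
  ring_nf

/-- The exponent. -/
theorem exponent {r κ j : ℕ} (hr : 59 ≤ r) (h1 : 2 ^ (r + 1) ≤ j) (h2 : j ≤ 2 * κ + 5 * r + 4)
    (hκ : r + 8 ≤ κ) : 2 ^ (j / 2) / j ^ 4 ≤ 2 ^ (κ - r - 6) := by
  refine Nat.div_le_of_le_mul ?_
  calc 2 ^ (j / 2) ≤ 2 ^ ((r + 1) * 4 + (κ - r - 6)) := Nat.pow_le_pow_right (by norm_num) (by omega)
    _ = (2 ^ (r + 1)) ^ 4 * 2 ^ (κ - r - 6) := by rw [pow_add, pow_mul]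
    _ ≤ j ^ 4 * 2 ^ (κ - r - 6) := by gcongr

end Pool.Agent.H532R2.MF
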