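import Pool.Agent.H532R2.MF.FUpper
import Pool.Agent.H532R2.MF.FCount
import Pool.Agent.H532R2.MF.FParams
import Pool.Agent.H532R2.MC.Final

/-!
# The sign rank of the Minimum Formula Size Problem
-/

namespace Pool.Agent.H532R2.MF

open Finset Matrix Pool.Agent.H532R2.MC

noncomputable instance fintypePairs (ℓ p r : ℕ) :
    Fintype ((Pos ℓ p r → Bool) × (Pos ℓ p r → Bool)) := instFintypeProd _ _

theorem card_pos_type (ℓ p r : ℕ) : Fintype.card (Pos ℓ p r) = 2 ^ (p + 2 ^ r) * ℓ := by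
  rw [Fintype.card_prod, Fintype.card_prod, Fintype.card_fun, Fintype.card_fun, Fintype.card_bool,
    Fintype.card_fin, Fintype.card_fin, card_ix, pow_add]

theorem card_exceptions {ℓ p r s : ℕ} (E : Finset ((Pos ℓ p r → Bool) × (Pos ℓ p r → Bool)))
    (hE : ∀ q ∈ E, FL (vars (ℓ + (p + 2 ^ r) + 1)) (glue (tab q.1) (tab q.2)) s) :
    E.card ≤ (small (ℓ + (p + 2 ^ r) + 1) s).card := by
  classical
  refine Finset.card_le_card_of_injOn (fun q => glue (tab q.1) (tab q.2)) ?_ ?_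
  · intro q hq
    exact Finset.mem_coe.2 (Finset.mem_filter.2 ⟨Finset.mem_univ _, hE q hq⟩)
  · intro q _ q' _ h
    obtain ⟨h1, h2⟩ := glue_injective h
    exact Prod.ext (tab_injective h1) (tab_injective h2)

/-- The lower bound for pairs of tables. -/
theorem core {ℓ p r κ s₁ s₂ d : ℕ} (hℓ : ℓ + 7 = r) (hr : 59 ≤ r) (hj1 : 2 ^ (r + 1) ≤ p + 2 ^ r)
    (hκ1 : 2 * κ + 5 * r + 3 ≤ p + 2 ^ r) (hκ2 : p + 2 ^ r ≤ 2 * κ + 5 * r + 4)
    (hν : ℓ + (p + 2 ^ r) + 2 ≤ 2 ^ (r + 3)) (hp : 2 * r ≤ p) (hκ : r + 8 ≤ κ)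
    (hs₁ : 17 * 2 ^ (p + 2 ^ r) ≤ 16 * s₁) (h12 : s₁ ≤ s₂) (hs₂ : 2 * s₂ ≤ 3 * 2 ^ (p + 2 ^ r))
    (u v : (Pos ℓ p r → Bool) → Fin d → ℝ)
    (hyes : ∀ x y, FL (vars (ℓ + (p + 2 ^ r) + 1)) (glue (tab x) (tab y)) s₁ → 0 < u x ⬝ᵥ v y)
    (hno : ∀ x y, ¬FL (vars (ℓ + (p + 2 ^ r) + 1)) (glue (tab x) (tab y)) s₂ →
      u x ⬝ᵥ v y < 0) :
    2 ^ (2 ^ ((p + 2 ^ r) / 2) / (p + 2 ^ r) ^ 4 + 1) ≤ d := by
  classical
  have hcardι := card_pos_type ℓ p r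
  have hexp := exponent hr hj1 hκ2 hκ
  have hyes' : ∀ (ω : Fin (2 ^ κ) → Base (ℓ + (p + 2 ^ r))) (x : Pos ℓ p r → Bool),
      FL (vars (ℓ + (p + 2 ^ r) + 1)) (glue (tab x) (tab (shiftBy (rs ω) x))) s₁ := by
    intro ω x
    refine (yes_cost (τ := r + 3) (by omega) x ω).weak ?_
    have h1 := size_bound (j := p + 2 ^ r) rfl hℓ hκ1 hν hp (card_centres r)
    exact Nat.le_of_mul_le_mul_left (h1.trans hs₁) (by norm_num)
  set ν := ℓ + (p + 2 ^ r) with hνdef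
  set j := p + 2 ^ r with hjdef
  have hν1 : ν + 1 ≤ 2 ^ (r + 3) := by omega
  have hbias := bias_small hν1 hκ
  have hX4 : 4 ≤ 2 ^ (κ - r - 6) := by
    calc 4 = 2 ^ 2 := by norm_num
      _ ≤ _ := Nat.pow_le_pow_right (by norm_num) (by omega)
  have hXj : 2 ^ (κ - r - 6) + 4 ≤ 2 ^ j := by
    calc 2 ^ (κ - r - 6) + 4 ≤ 2 ^ (κ - r - 6) * 2 := by omega
      _ = 2 ^ (κ - r - 6 + 1) := by rw [pow_succ]
      _ ≤ 2 ^ j := Nat.pow_le_pow_right (by norm_num) (by omega)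
  refine le_trans (Nat.pow_le_pow_right (by norm_num) (Nat.add_le_add_right hexp 1)) ?_
  generalize 2 ^ (κ - r - 6) = X at hbias hX4 hXj hexp ⊢
  have hjℓ : 2 ^ j ≤ 2 ^ j * ℓ := Nat.le_mul_of_pos_right _ (by omega)
  by_cases hd : d ≤ 2 ^ Fintype.card (Pos ℓ p r)
  swap
  · refine le_trans (Nat.pow_le_pow_right (by norm_num) ?_) (not_le.1 hd).le
    rw [hcardι]
    omega
  have hmono : ∀ f : BF (ν + 1), FL (vars (ν + 1)) f s₁ → FL (vars (ν + 1)) f s₂ :=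
    fun f h => h.weak h12
  have hd0 : 0 < d := by
    rcases Nat.eq_zero_or_pos d with rfl | h
    · exfalso
      have h1 := hyes _ _ (hyes' (fun _ => (false, (0, fun _ => (fun _ => false, false))))
        (fun _ => false))
      simp [dotProduct] at h1
    · exact h
  let E : Finset ((Pos ℓ p r → Bool) × (Pos ℓ p r → Bool)) :=
    univ.filter fun q => FL (vars (ν + 1)) (glue (tab q.1) (tab q.2)) s₂
  have hΩ : 0 < Fintype.card (Fin (2 ^ κ) → Base ν) := Fintype.card_pos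
  have hε0 : (0 : ℝ) ≤ (1 - 3 / (16 * ((ν : ℝ) + 1))) ^ (2 ^ κ) := by
    refine pow_nonneg ?_ _
    have : 3 / (16 * ((ν : ℝ) + 1)) ≤ 1 := by
      rw [div_le_one (by positivity)]
      have : (0 : ℝ) ≤ ν := Nat.cast_nonneg ν
      linarith
    linarith
  have key := sign_rank_shift (ι := Pos ℓ p r) (Ω := Fin (2 ^ κ) → Base ν) (fun ω => rs ω) E
    ((1 - 3 / (16 * ((ν : ℝ) + 1))) ^ (2 ^ κ)) hε0 hΩ (fun S hS => rs_bias _ S hS)
    (fun ω x => Finset.mem_filter.2 ⟨Finset.mem_univ _, hmono _ (hyes' ω x)⟩) hd0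
    hd u v (fun ω x => hyes _ _ (hyes' ω x))
    (fun x y hxy => hno x y fun h => hxy (Finset.mem_filter.2 ⟨Finset.mem_univ _, h⟩))
  -- the exceptions
  have hEcard : E.card * 2 ^ (X + 4) ≤ 2 ^ (2 * (2 ^ j * ℓ)) := by
    refine few_exceptions (ν := ν) (s := s₂) hr hℓ ?_ hν1 hs₂ ?_ hXj ?_
    · have : r < 2 ^ (r + 1) := (Nat.lt_succ_self r).trans Nat.lt_two_pow_self
      omega
    · have : 8 ≤ 2 ^ j := by omega
      omega
    · refine (card_exceptions E fun q hq => (Finset.mem_filter.1 hq).2).trans ?_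
      exact small_card (ν + 1) s₂ (by omega)
  have hE2 : 2 * ((E.card : ℝ) / (2 ^ Fintype.card (Pos ℓ p r) *
      2 ^ Fintype.card (Pos ℓ p r))) ≤ 1 / 2 ^ (X + 2) := by
    rw [hcardι, ← pow_add, ← two_mul, mul_div_assoc']
    rw [div_le_div_iff₀ (by positivity) (by positivity), one_mul]
    have h1 : ((E.card * 2 ^ (X + 4) : ℕ) : ℝ) ≤ ((2 ^ (2 * (2 ^ j * ℓ)) : ℕ) : ℝ) := by
      exact_mod_cast hEcard
    push_cast at h1
    refine le_trans ?_ h1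
    have h2 : (0 : ℝ) ≤ (E.card : ℝ) * 2 ^ (X + 2) :=
      mul_nonneg (Nat.cast_nonneg _) (pow_nonneg (by norm_num) _)
    have h3 : (E.card : ℝ) * 2 ^ (X + 4) = 4 * ((E.card : ℝ) * 2 ^ (X + 2)) := by
      rw [show X + 4 = (X + 2) + 2 from rfl, pow_add (2 : ℝ) (X + 2) 2]
      ring
    rw [h3, mul_assoc]
    exact mul_le_mul_of_nonneg_right (by norm_num) h2
  have hfinal : (1 : ℝ) ≤ d * (1 / 2 ^ (X + 1)) := by
    refine key.trans ?_
    refine mul_le_mul_of_nonneg_left ?_ (Nat.cast_nonneg d)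
    refine (add_le_add hbias hE2).trans (le_of_eq ?_)
    rw [pow_succ (2 : ℝ) (X + 1)]
    field_simp
    norm_num
  rw [mul_one_div, le_div_iff₀ (by positivity), one_mul] at hfinal
  exact_mod_cast hfinal

/-- The lower bound with non-strict inequalities, general form. -/
theorem general {j s₁ s₂ : ℕ} (hj : 2 ^ 60 ≤ j) (hs₁ : 17 * 2 ^ j ≤ 16 * s₁) (h12 : s₁ ≤ s₂)
    (hs₂ : 2 * s₂ ≤ 3 * 2 ^ j) : ∃ ν : ℕ, ν + 1 ≤ j + Nat.log 2 j ∧
    ∃ (ι : Type) (T : ι → BF ν), ∀ (d : ℕ) (u v : ι → Fin d → ℝ),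
      (∀ x y, FL (vars (ν + 1)) (glue (T x) (T y)) s₁ → 0 < ∑ i, u x i * v y i) →
      (∀ x y, ¬FL (vars (ν + 1)) (glue (T x) (T y)) s₂ → ∑ i, u x i * v y i ≤ 0) →
      2 ^ (2 ^ (j / 2) / j ^ 4) ≤ d := by
  classical
  obtain ⟨r, p, ℓ, κ, rfl, a2, a3, a4, a5, a6, a7, a8, a9, a10, a11⟩ := params hj
  refine ⟨ℓ + (p + 2 ^ r), by omega, Pos ℓ p r → Bool, tab, fun d u v hyes hno => ?_⟩
  obtain ⟨θ, hθ, hmin⟩ := exists_threshold
    (univ.filter fun q : (Pos ℓ p r → Bool) × (Pos ℓ p r → Bool) =>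
      FL (vars (ℓ + (p + 2 ^ r) + 1)) (glue (tab q.1) (tab q.2)) s₁)
    (fun q => ∑ i, u q.1 i * v q.2 i) (fun q hq => hyes _ _ (Finset.mem_filter.1 hq).2)
  have hdot : ∀ x y, (Fin.cons (-θ) (u x) : Fin (d + 1) → ℝ) ⬝ᵥ (Fin.cons 1 (v y)) =
      -θ + ∑ i, u x i * v y i := by
    intro x y
    rw [dotProduct, Fin.sum_univ_succ]
    simp
  have key := core (d := d + 1) a2 a3 a4 a6 a7 a8 a9 a10 hs₁ h12 hs₂
    (fun x => Fin.cons (-θ) (u x)) (fun y => Fin.cons 1 (v y)) (fun x y h => by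
      rw [hdot]
      have := hmin (x, y) (Finset.mem_filter.2 ⟨Finset.mem_univ _, h⟩)
      linarith) (fun x y h => by
      rw [hdot]
      have := hno x y h
      linarith)
  generalize 2 ^ ((p + 2 ^ r) / 2) / (p + 2 ^ r) ^ 4 = X at key ⊢
  rw [pow_succ] at key
  have : 1 ≤ 2 ^ X := Nat.one_le_two_pow
  omega

theorem mfsp_iff {n s : ℕ} (f : BF n) : MFSP n (table n f) s ↔ FL (vars n) f s := by
  unfold MFSP
  rw [fl_iff]
  constructor
  · rintro ⟨_, F, h1, h2⟩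
    exact ⟨F, (table_injective _ h1).symm, h2⟩
  · rintro ⟨F, rfl, h⟩
    exact ⟨table_length _ _, F, rfl, h⟩

theorem fl_str {ν N s : ℕ} (h : ν ≤ N) (g : BF ν) :
    FL (vars N) (str h g) s ↔ FL (vars ν) g s := by
  constructor
  · intro h1
    have h2 := h1.precomp (B' := vars ν) (fun (w : Fin ν → Bool) (j : Fin N) =>
      if hj : (j : ℕ) < ν then w ⟨j, hj⟩ else false) (by
      rintro _ ⟨j, rfl⟩
      by_cases hj : (j : ℕ) < ν
      · exact (FL.of_mem (B := vars ν) (f := fun w : Fin ν → Bool => w ⟨j, hj⟩)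
          ⟨⟨j, hj⟩, rfl⟩).congr fun w => by simp [hj]
      · exact ((FL.const false).weak (Nat.zero_le 1)).congr fun w => by simp [hj])
    refine h2.congr fun w => ?_
    unfold str
    congr 1
    funext i
    have hi : ((Fin.castLE h i : Fin N) : ℕ) < ν := i.2
    show (if hj : ((Fin.castLE h i : Fin N) : ℕ) < ν then w ⟨_, hj⟩ else false) = w i
    rw [dif_pos hi]
    rfl
  · intro h1
    exact h1.precomp (fun (w : Fin N → Bool) (i : Fin ν) => w (Fin.castLE h i)) (by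
      rintro _ ⟨i, rfl⟩
      exact FL.of_mem ⟨_, rfl⟩)

/-- The sign rank of the Minimum Formula Size Problem. -/
theorem sign_rank_mfsp (n j s₁ s₂ d : ℕ) (hj : 2 ^ 60 ≤ j) (hn : j + Nat.log 2 j ≤ n)
    (hs₁ : 17 * 2 ^ j ≤ 16 * s₁) (h12 : s₁ ≤ s₂) (hs₂ : 2 * s₂ ≤ 3 * 2 ^ j)
    (a b : Fin d → List Bool → ℝ)
    (hyes : ∀ x y : List Bool, x.length = 2 ^ (n - 1) → y.length = 2 ^ (n - 1) →
      MFSP n (x ++ y) s₁ → 0 < ∑ i, a i x * b i y)
    (hno : ∀ x y : List Bool, x.length = 2 ^ (n - 1) → y.length = 2 ^ (n - 1) →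
      ¬MFSP n (x ++ y) s₂ → ∑ i, a i x * b i y ≤ 0) :
    2 ^ (2 ^ (j / 2) / j ^ 4) ≤ d := by
  obtain ⟨ν, hν, ι, T, key⟩ := general hj hs₁ h12 hs₂
  obtain ⟨N, rfl⟩ : ∃ N, n = N + 1 := ⟨n - 1, by omega⟩
  have hνN : ν ≤ N := by omega
  rw [Nat.add_sub_cancel] at hyes hno
  refine key d (fun x i => a i (table N (str hνN (T x))))
    (fun y i => b i (table N (str hνN (T y)))) ?_ ?_
  · intro x y h
    refine hyes _ _ (table_length _ _) (table_length _ _) ?_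
    rw [← table_glue, glue_str hνN, mfsp_iff, fl_str]
    exact h
  · intro x y h
    refine hno _ _ (table_length _ _) (table_length _ _) ?_
    rw [← table_glue, glue_str hνN, mfsp_iff, fl_str]
    exact h

end Pool.Agent.H532R2.MF
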