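import Pool.Agent.H532R2.MF.FL

/-!
# Lupanov's formulas: the cube is a disjoint union of punctured spheres
-/

namespace Pool.Agent.H532R2.MF

open Finset Pool.Agent.H532R2.MC

section

variable {r : ℕ}

/-- The index set of the coordinates. -/
abbrev Ix (r : ℕ) : Type := Fin r → ZMod 2

/-- Change of one coordinate. -/
def flip (u : Ix r → Bool) (i : Ix r) : Ix r → Bool := Function.update u i (!u i)

/-- The syndrome. -/
def syn (u : Ix r → Bool) : Ix r := ∑ i, if u i then i else 0

theorem add_self_ix (i : Ix r) : i + i = 0 := by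
  funext j
  exact CharTwo.add_self_eq_zero (i j)

theorem syn_flip (u : Ix r → Bool) (i : Ix r) : syn (flip u i) = syn u + i := by
  classical
  unfold syn
  rw [← Finset.add_sum_erase _ _ (Finset.mem_univ i), ← Finset.add_sum_erase _ (fun i => if u i then i else 0) (Finset.mem_univ i)]
  have h1 : ∑ x ∈ univ.erase i, (if flip u i x then x else 0) =
      ∑ x ∈ univ.erase i, (if u x then x else 0) := by
    refine Finset.sum_congr rfl fun x hx => ?_
    unfold flip
    rw [Function.update_of_ne (Finset.ne_of_mem_erase hx)]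
  rw [h1]
  unfold flip
  rw [Function.update_self]
  cases u i
  · simp [add_comm]
  · simp only [Bool.not_true, if_false, if_true, Bool.false_eq_true]
    rw [zero_add, add_right_comm, add_self_ix, zero_add]

theorem flip_flip (u : Ix r → Bool) (i : Ix r) : flip (flip u i) i = u := by
  funext j
  unfold flip
  by_cases h : j = i
  · subst h; simp
  · simp [h]

/-- The centres of the spheres. -/
def centres (r : ℕ) : Finset (Ix r → Bool) := univ.filter fun c => syn c = 0

theorem mem_centres {c : Ix r → Bool} : c ∈ centres r ↔ syn c = 0 := by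
  simp [centres]

/-- The centre of the sphere of a point. -/
def ctr (u : Ix r → Bool) : Ix r → Bool := flip u (syn u)

theorem ctr_mem (u : Ix r → Bool) : ctr u ∈ centres r := by
  rw [mem_centres, ctr, syn_flip, add_self_ix]

theorem flip_ctr (u : Ix r → Bool) : flip (ctr u) (syn u) = u := flip_flip u _

theorem eq_of_flip {c : Ix r → Bool} (hc : c ∈ centres r) {i : Ix r} {u : Ix r → Bool}
    (h : flip c i = u) : i = syn u ∧ c = ctr u := by
  have h1 : syn u = i := by
    rw [← h, syn_flip, mem_centres.1 hc, zero_add]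
  refine ⟨h1.symm, ?_⟩
  rw [ctr, h1, ← h, flip_flip]

theorem card_centres (r : ℕ) : (centres r).card * 2 ^ r = 2 ^ 2 ^ r := by
  classical
  have h1 : Fintype.card (Ix r) = 2 ^ r := by
    rw [Fintype.card_fun, ZMod.card, Fintype.card_fin]
  have h2 : (centres r ×ˢ (univ : Finset (Ix r))).card = (univ : Finset (Ix r → Bool)).card := by
    refine Finset.card_bij (fun p _ => flip p.1 p.2) (fun p _ => Finset.mem_univ _) ?_ ?_
    · rintro ⟨c, i⟩ hp ⟨c', i'⟩ hp' h
      obtain ⟨a1, a2⟩ := eq_of_flip (Finset.mem_product.1 hp).1 (rfl : flip c i = flip c i)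
      obtain ⟨b1, b2⟩ := eq_of_flip (Finset.mem_product.1 hp').1 (rfl : flip c' i' = flip c' i')
      simp only at h a2 b2
      rw [h] at a1 a2
      rw [a1, a2, ← b1, ← b2]
    · intro u _
      exact ⟨(ctr u, syn u), Finset.mem_product.2 ⟨ctr_mem u, Finset.mem_univ _⟩, flip_ctr u⟩
  rw [Finset.card_product, Finset.card_univ, Finset.card_univ, h1, Fintype.card_fun,
    Fintype.card_bool, h1] at h2
  exact h2

/-- Sums over the cube. -/
theorem sum_spheres (F : (Ix r → Bool) → ℕ) :
    ∑ c ∈ centres r, ∑ i, F (flip c i) = ∑ u, F u := by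
  classical
  rw [← Finset.sum_product']
  refine Finset.sum_bij (fun p _ => flip p.1 p.2) (fun p _ => Finset.mem_univ _) ?_ ?_ ?_
  · rintro ⟨c, i⟩ hp ⟨c', i'⟩ hp' h
    obtain ⟨a1, a2⟩ := eq_of_flip (Finset.mem_product.1 hp).1 (rfl : flip c i = flip c i)
    obtain ⟨b1, b2⟩ := eq_of_flip (Finset.mem_product.1 hp').1 (rfl : flip c' i' = flip c' i')
    simp only at h a2 b2
    rw [h] at a1 a2
    rw [a1, a2, ← b1, ← b2]
  · intro u _
    exact ⟨(ctr u, syn u), Finset.mem_product.2 ⟨ctr_mem u, Finset.mem_univ _⟩, flip_ctr u⟩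
  · intro p _
    rfl

end

section

variable {r p : ℕ} {α : Type} {B : Set (α → Bool)} (v : Fin p → α → Bool) (y : Ix r → α → Bool)

/-- Whether `u` lies on the sphere of `c`. -/
theorem fl_sphere (hy : ∀ i, y i ∈ B) (c : Ix r → Bool) (hc : c ∈ centres r) :
    FL B (fun z => decide (ctr (fun i => y i z) = c)) (2 ^ r * 2 ^ r) := by
  classical
  have h1 : Fintype.card (Ix r) = 2 ^ r := by
    rw [Fintype.card_fun, ZMod.card, Fintype.card_fin]
  have h2 : ∀ i ∈ (univ : Finset (Ix r)), FL B (fun z => decide ((fun j => y j z) = flip c i))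
      (2 ^ r) := by
    intro i _
    refine (FL.bigAnd (univ : Finset (Ix r)) (f := fun j z => (y j z) ^^ !(flip c i j))
      (c := fun _ => 1) (fun j _ => FL.lit _ (hy j)) fun z => ?_).weak (by simp [h1])
    rw [decide_eq_true_iff, funext_iff]
    simp only [Finset.mem_univ, true_implies]
    refine forall_congr' fun j => ?_
    cases y j z <;> cases flip c i j <;> simp
  refine (FL.bigOr (univ : Finset (Ix r)) h2 fun z => ?_).weak (by simp [h1])
  rw [decide_eq_true_iff]
  simp only [Finset.mem_univ, true_and, decide_eq_true_iff]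
  constructor
  · rintro rfl
    exact ⟨_, (flip_ctr _).symm⟩
  · rintro ⟨i, hi⟩
    exact (eq_of_flip hc hi.symm).2.symm

/-- The set of points at which a function with many values takes the value `a`. -/
theorem fl_value {A : Type} [DecidableEq A] (hv : ∀ j, v j ∈ B) (hy : ∀ i, y i ∈ B)
    (x : (Fin p → Bool) → (Ix r → Bool) → A) (a : A) :
    FL B (fun z => decide (x (fun j => v j z) (fun i => y i z) = a))
      ((centres r).card * (2 ^ r * 2 ^ r + 2 * 2 ^ p) +
        ∑ w, ∑ u, if x w u = a then 1 else 0) := by
  classical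
  -- the functions at the leaves of the trees
  have h1 : ∀ (c : Ix r → Bool) (w : Fin p → Bool),
      FL B (fun z => decide (∃ i ∈ (univ.filter fun i => x w (flip c i) = a), y i z ≠ c i))
        (∑ i, if x w (flip c i) = a then 1 else 0) := by
    intro c w
    refine (FL.bigOr (univ.filter fun i => x w (flip c i) = a) (f := fun i z => (y i z ^^ c i))
      (c := fun _ => 1) (fun i _ => FL.lit _ (hy i)) fun z => ?_).weak (by
        rw [Finset.sum_filter])
    refine (@decide_eq_true_iff _ (_)).trans ?_
    refine exists_congr fun i => and_congr_right fun _ => ?_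
    cases y i z <;> cases c i <;> simp
  have h2 : ∀ c ∈ centres r, FL B (fun z => decide (ctr (fun i => y i z) = c) &&
      decide (∃ i ∈ (univ.filter fun i => x (fun j => v j z) (flip c i) = a), y i z ≠ c i))
      (2 ^ r * 2 ^ r + 2 * 2 ^ p + ∑ w, ∑ i, if x w (flip c i) = a then 1 else 0) := by
    intro c hc
    refine ((fl_sphere y hy c hc).and (FL.tree p v hv _ _ (h1 c))).weak ?_
    omega
  refine (FL.bigOr (centres r) h2 fun z => ?_).weak ?_
  · rw [decide_eq_true_iff]
    simp only [Bool.and_eq_true, decide_eq_true_iff, Finset.mem_filter, Finset.mem_univ, true_and]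
    set u := fun i => y i z with hu
    set w := fun j => v j z with hw
    have key : ∀ i, (u i ≠ ctr u i ↔ i = syn u) := by
      intro i
      unfold ctr flip
      by_cases h : i = syn u
      · subst h; simp
      · simp [h]
    constructor
    · intro h
      refine ⟨ctr u, ctr_mem u, rfl, syn u, ?_, (key _).2 rfl⟩
      rw [flip_ctr]
      exact h
    · rintro ⟨c, hc, rfl, i, hi, hne⟩
      rw [(key i).1 hne, flip_ctr] at hi
      exact hi
  · rw [Finset.sum_add_distrib, Finset.sum_const, smul_eq_mul]
    refine Nat.add_le_add_left (le_of_eq ?_) _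
    rw [Finset.sum_comm]
    refine Finset.sum_congr rfl fun w _ => ?_
    exact sum_spheres fun u => if x w u = a then 1 else 0

end

end Pool.Agent.H532R2.MF
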