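import Pool.Agent.H532R2.MF.FSphere
import Pool.Agent.H532R2.MF.FHash
import Pool.Agent.H532R2.MC.Main

/-!
# Pairs of tables with small formulas
-/

namespace Pool.Agent.H532R2.MF

open Finset Pool.Agent.H532R2.MC

/-- The kinds of variables. -/
abbrev Kinds (ℓ p r : ℕ) : Type := Fin ℓ ⊕ (Fin p ⊕ Ix r)

theorem card_ix (r : ℕ) : Fintype.card (Ix r) = 2 ^ r := by
  rw [Fintype.card_fun, ZMod.card, Fintype.card_fin]

theorem card_kinds (ℓ p r : ℕ) : Fintype.card (Kinds ℓ p r) = ℓ + (p + 2 ^ r) := by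
  rw [Fintype.card_sum, Fintype.card_sum, Fintype.card_fin, Fintype.card_fin, card_ix]

/-- The numbering of the variables. -/
noncomputable def num (ℓ p r : ℕ) : Kinds ℓ p r ≃ Fin (ℓ + (p + 2 ^ r)) :=
  Fintype.equivFinOfCardEq (card_kinds ℓ p r)

/-- The positions. -/
abbrev Pos (ℓ p r : ℕ) : Type := ((Fin p → Bool) × (Ix r → Bool)) × Fin ℓ

section

variable {ℓ p r : ℕ}

/-- The three parts of an input. -/
noncomputable def pa (z : Fin (ℓ + (p + 2 ^ r)) → Bool) : Fin ℓ → Bool :=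
  fun j => z (num ℓ p r (.inl j))

noncomputable def pw (z : Fin (ℓ + (p + 2 ^ r)) → Bool) : Fin p → Bool :=
  fun j => z (num ℓ p r (.inr (.inl j)))

noncomputable def pu (z : Fin (ℓ + (p + 2 ^ r)) → Bool) : Ix r → Bool :=
  fun j => z (num ℓ p r (.inr (.inr j)))

/-- The input with given parts. -/
noncomputable def pt (a : Fin ℓ → Bool) (w : Fin p → Bool) (u : Ix r → Bool) :
    Fin (ℓ + (p + 2 ^ r)) → Bool :=
  fun i => Sum.elim a (Sum.elim w u) ((num ℓ p r).symm i)

@[simp] theorem pa_pt (a : Fin ℓ → Bool) (w : Fin p → Bool) (u : Ix r → Bool) :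
    pa (pt a w u) = a := by
  funext j; simp [pa, pt]

@[simp] theorem pw_pt (a : Fin ℓ → Bool) (w : Fin p → Bool) (u : Ix r → Bool) :
    pw (pt a w u) = w := by
  funext j; simp [pw, pt]

@[simp] theorem pu_pt (a : Fin ℓ → Bool) (w : Fin p → Bool) (u : Ix r → Bool) :
    pu (pt a w u) = u := by
  funext j; simp [pu, pt]

/-- The function with values in `Fin ℓ → Bool` given by a string of bits. -/
def val (x : Pos ℓ p r → Bool) (w : Fin p → Bool) (u : Ix r → Bool) : Fin ℓ → Bool :=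
  fun j => x ((w, u), j)

/-- The graph of the function. -/
noncomputable def tab (x : Pos ℓ p r → Bool) : BF (ℓ + (p + 2 ^ r)) :=
  fun z => decide (val x (pw z) (pu z) = pa z)

theorem tab_injective {x y : Pos ℓ p r → Bool} (h : tab x = tab y) : x = y := by
  funext q
  obtain ⟨⟨w, u⟩, j⟩ := q
  have h1 := congrFun h (pt (val x w u) w u)
  simp only [tab, pw_pt, pu_pt, pa_pt, decide_true] at h1
  have h2 : val y w u = val x w u := by
    by_contra hne
    rw [decide_eq_false hne] at h1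
    exact absurd h1 (by simp)
  exact (congrFun h2 j).symm

/-- The vector with exactly one `true`. -/
def onehot (j : Fin ℓ) : Fin ℓ → Bool := fun i => decide (i = j)

/-- The embedding of the positions. -/
noncomputable def emb (q : Pos ℓ p r) : Fin (ℓ + (p + 2 ^ r)) → Bool := pt (onehot q.2) q.1.1 q.1.2

theorem emb_injective : Function.Injective (emb (ℓ := ℓ) (p := p) (r := r)) := by
  rintro ⟨⟨w, u⟩, j⟩ ⟨⟨w', u'⟩, j'⟩ h
  have h1 := congrArg pa h
  have h2 := congrArg pw h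
  have h3 := congrArg pu h
  simp only [emb, pa_pt, pw_pt, pu_pt] at h1 h2 h3
  have h4 := congrFun h1 j
  simp only [onehot, decide_true] at h4
  have h5 : j = j' := by
    by_contra hne
    rw [decide_eq_false hne] at h4
    exact absurd h4 (by simp)
  subst h2 h3 h5
  rfl

/-- The random shift. -/
noncomputable def rs {t : ℕ} (ω : Fin t → Base (ℓ + (p + 2 ^ r))) (q : Pos ℓ p r) : Bool :=
  ef ω (emb q)

theorem rs_bias (t : ℕ) (S : Finset (Pos ℓ p r)) (hS : S.Nonempty) :
    |∑ ω : Fin t → Base (ℓ + (p + 2 ^ r)), chi S (rs ω)| ≤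
      (1 - 3 / (16 * (((ℓ + (p + 2 ^ r) : ℕ) : ℝ) + 1))) ^ t *
        Fintype.card (Fin t → Base (ℓ + (p + 2 ^ r))) := by
  classical
  have h1 := ef_bias t (S.map ⟨emb, emb_injective⟩) (Finset.map_nonempty.2 hS)
  have h2 : ∀ ω : Fin t → Base (ℓ + (p + 2 ^ r)), chi (S.map ⟨emb, emb_injective⟩) (ef ω) =
      chi S (rs ω) := by
    intro ω
    unfold chi
    rw [Finset.prod_map]
    rfl
  simp only [h2] at h1
  exact h1

/-- The size of the formulas for a pair of tables which differ by a random shift. -/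
theorem yes_cost {κ τ : ℕ} (hτ : ℓ + (p + 2 ^ r) ≤ 2 ^ τ) (x : Pos ℓ p r → Bool)
    (ω : Fin (2 ^ κ) → Base (ℓ + (p + 2 ^ r))) :
    FL (vars (ℓ + (p + 2 ^ r) + 1)) (glue (tab x) (tab (shiftBy (rs ω) x)))
      (2 ^ ℓ * (ℓ * (4 + 2 * (4 ^ κ * ((ℓ + (p + 2 ^ r) + 2) * 4 ^ τ)))) +
        2 ^ ℓ * ((centres r).card * (2 ^ r * 2 ^ r + 2 * 2 ^ p)) + 2 ^ p * 2 ^ 2 ^ r) := by
  classical
  have hvar : ∀ i : Fin (ℓ + (p + 2 ^ r)), (fun z : Fin (ℓ + (p + 2 ^ r) + 1) → Bool =>
      Fin.tail z i) ∈ vars (ℓ + (p + 2 ^ r) + 1) := fun i => ⟨i.succ, rfl⟩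
  -- the shift
  have hh : ∀ j : Fin ℓ, FL (vars (ℓ + (p + 2 ^ r) + 1))
      (fun z => ef ω (pt (onehot j) (pw (Fin.tail z)) (pu (Fin.tail z))))
      (4 ^ κ * ((ℓ + (p + 2 ^ r) + 2) * 4 ^ τ)) := by
    intro j
    refine (fl_ef hτ ω).precomp (fun z : Fin (ℓ + (p + 2 ^ r) + 1) → Bool =>
      pt (onehot j) (pw (Fin.tail z)) (pu (Fin.tail z))) ?_
    rintro _ ⟨i, rfl⟩
    obtain ⟨k, rfl⟩ := (num ℓ p r).surjective i
    rcases k with k | k | k
    · refine ((FL.const (onehot j k)).weak (Nat.zero_le 1)).congr fun z => ?_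
      simp [pt]
    · refine (FL.of_mem (hvar (num ℓ p r (.inr (.inl k))))).congr fun z => ?_
      simp [pt, pw]
    · refine (FL.of_mem (hvar (num ℓ p r (.inr (.inr k))))).congr fun z => ?_
      simp [pt, pu]
  -- comparison
  have hc : ∀ b : Fin ℓ → Bool, FL (vars (ℓ + (p + 2 ^ r) + 1))
      (fun z => decide (∀ j, b j = (pa (Fin.tail z) j ^^
        (z 0 && ef ω (pt (onehot j) (pw (Fin.tail z)) (pu (Fin.tail z)))))))
      (ℓ * (4 + 2 * (4 ^ κ * ((ℓ + (p + 2 ^ r) + 2) * 4 ^ τ)))) := by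
    intro b
    refine (FL.bigAnd (univ : Finset (Fin ℓ)) (f := fun j z => (pa (Fin.tail z) j ^^
        (z 0 && ef ω (pt (onehot j) (pw (Fin.tail z)) (pu (Fin.tail z))))) ^^ !(b j))
      (c := fun _ => 4 + 2 * (4 ^ κ * ((ℓ + (p + 2 ^ r) + 2) * 4 ^ τ))) (fun j _ => ?_)
      fun z => ?_).weak (by simp)
    · refine FL.xorConst ?_ _
      refine ((FL.of_mem (hvar (num ℓ p r (.inl j)))).xor
        ((FL.of_mem (B := vars (ℓ + (p + 2 ^ r) + 1)) ⟨0, rfl⟩).and (hh j))).weak ?_
      omega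
    · rw [decide_eq_true_iff]
      simp only [Finset.mem_univ, true_implies]
      refine forall_congr' fun j => ?_
      generalize (pa (Fin.tail z) j ^^
        (z 0 && ef ω (pt (onehot j) (pw (Fin.tail z)) (pu (Fin.tail z))))) = c
      cases b j <;> cases c <;> simp
  -- the values
  have hv : ∀ b : Fin ℓ → Bool, FL (vars (ℓ + (p + 2 ^ r) + 1))
      (fun z => decide (val x (pw (Fin.tail z)) (pu (Fin.tail z)) = b))
      ((centres r).card * (2 ^ r * 2 ^ r + 2 * 2 ^ p) +
        ∑ w, ∑ u, if val x w u = b then 1 else 0) := by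
    intro b
    exact fl_value (B := vars (ℓ + (p + 2 ^ r) + 1))
      (fun (j : Fin p) (z : Fin (ℓ + (p + 2 ^ r) + 1) → Bool) =>
        Fin.tail z (num ℓ p r (.inr (.inl j))))
      (fun (j : Ix r) (z : Fin (ℓ + (p + 2 ^ r) + 1) → Bool) =>
        Fin.tail z (num ℓ p r (.inr (.inr j))))
      (fun j => hvar (num ℓ p r (.inr (.inl j)))) (fun j => hvar (num ℓ p r (.inr (.inr j))))
      (val x) b
  have h1 : ∀ b ∈ (univ : Finset (Fin ℓ → Bool)), FL (vars (ℓ + (p + 2 ^ r) + 1))
      (fun z => decide (∀ j, b j = (pa (Fin.tail z) j ^^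
        (z 0 && ef ω (pt (onehot j) (pw (Fin.tail z)) (pu (Fin.tail z)))))) &&
        decide (val x (pw (Fin.tail z)) (pu (Fin.tail z)) = b))
      (ℓ * (4 + 2 * (4 ^ κ * ((ℓ + (p + 2 ^ r) + 2) * 4 ^ τ))) +
        ((centres r).card * (2 ^ r * 2 ^ r + 2 * 2 ^ p) +
        ∑ w, ∑ u, if val x w u = b then 1 else 0)) := fun b _ => (hc b).and (hv b)
  refine (FL.bigOr (univ : Finset (Fin ℓ → Bool)) h1 fun z => ?_).weak (le_of_eq ?_)
  · simp only [Finset.mem_univ, true_and, Bool.and_eq_true, decide_eq_true_iff]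
    have h2 : glue (tab x) (tab (shiftBy (rs ω) x)) z =
        decide (∀ j, val x (pw (Fin.tail z)) (pu (Fin.tail z)) j = (pa (Fin.tail z) j ^^
        (z 0 && ef ω (pt (onehot j) (pw (Fin.tail z)) (pu (Fin.tail z)))))) := by
      unfold glue
      cases z 0
      · simp only [Bool.false_eq_true, if_false, tab, Bool.false_and, Bool.xor_false, funext_iff]
      · simp only [if_true, tab, Bool.true_and, funext_iff]
        congr 1
        rw [eq_iff_iff]
        refine forall_congr' fun j => ?_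
        simp only [val, shiftBy, rs, emb]
        generalize ef ω (pt (onehot j) (pw (Fin.tail z)) (pu (Fin.tail z))) = c
        generalize x ((pw (Fin.tail z), pu (Fin.tail z)), j) = d
        cases c <;> cases d <;> cases pa (Fin.tail z) j <;> simp
    rw [h2, decide_eq_true_iff]
    constructor
    · intro h
      exact ⟨_, h, rfl⟩
    · rintro ⟨b, h, hb⟩
      rw [hb]
      exact h
  · rw [Finset.sum_add_distrib, Finset.sum_add_distrib, Finset.sum_const, Finset.sum_const,
      Finset.card_univ, Fintype.card_fun, Fintype.card_bool, Fintype.card_fin, smul_eq_mul,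
      smul_eq_mul, ← add_assoc]
    congr 1
    rw [Finset.sum_comm]
    have h3 : ∀ w : Fin p → Bool, ∑ b : Fin ℓ → Bool, ∑ u, (if val x w u = b then 1 else 0) =
        2 ^ 2 ^ r := by
      intro w
      rw [Finset.sum_comm]
      simp only [Finset.sum_ite_eq, Finset.mem_univ, if_true]
      rw [Finset.sum_const, Finset.card_univ, Fintype.card_fun, Fintype.card_bool, card_ix,
        smul_eq_mul, mul_one]
    simp only [h3]
    rw [Finset.sum_const, Finset.card_univ, Fintype.card_fun, Fintype.card_bool,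
      Fintype.card_fin, smul_eq_mul]

end

end Pool.Agent.H532R2.MF
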